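import Pool.Agent.X306.LP.E
import Pool.Agent.X306.LP.Q
import Pool.Agent.X306.LP.Prod

/-!
# Complete intersections of products of linear forms: three asymptotic forms of the SLP

Let `K` be a field of characteristic zero, let `D` be a set of degrees (for example all positive
integers, or one common degree), and let `PCI K D` be the class of the graded Artinian complete
intersections `R = K[x_1, ..., x_r] / (f_1, ..., f_r)` (in any number `r` of variables) where each `f_i`
is a product of `a_i ≥ 1` linear forms, `a_i ∈ D`; let `s = soc R` be the socle degree. For a linear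
form `l ∈ R_1` let

* `right(R, l)` be the sum of the lengths of the centred strings (homogeneous Jordan blocks from the
  degree `i` to the degree `s - i` for some `i`) of the multiplication by `l`;
* `rankSum(R, l) = 2 ∑_k k · rank(l ^ k)` and `moment R = ∑_i (s - 2 i)² dim R_i`;
* `jchar(R, l, x)` be the sum of `x ^ (L - 1) + x ^ (L - 3) + ... + x ^ (1 - L)` over the Jordan blocks
  of the multiplication by `l` (`L` the length) and `hchar(R, x) = ∑_i dim R_i · x ^ (s - 2 i)`, for a
  real number `x > 1`.

The class `PCI K D` is closed under tensor products and the following are equivalent: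

1. all the algebras in `PCI K D` have the strong Lefschetz property;
2. for some `f` with `f(s) √s → ∞` (e.g. a positive constant) each of them has a linear form `l` with
   `right(R, l) ≥ f(s) · dim R`;
3. for some `g` with `g(s) → 0` each has a linear form `l` with
   `rankSum(R, l) ≥ (1 - g(s)) · moment R`;
4. for some `h` with `h(s) / s → 0` each has a linear form `l` with
   `jchar(R, l, x) ≥ exp(- h(s)) · hchar(R, x)`.
-/

set_option autoImplicit false

universe u v

namespace Pool.Agent.Results.MP_53b7aa_ag.AsymptoticProducts

open Pool.Agent.X306.LP

/-- **Complete intersections of products of linear forms: the strong Lefschetz property is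
equivalent to three asymptotic forms of it.** -/
theorem result {K : Type u} [Field K] [CharZero K] (D : Set ℕ) (x : ℝ) (hx : 1 < x) :
    (∀ R ∈ PCI.{u, v} K D, ∀ S ∈ PCI.{u, v} K D, tensor R S ∈ PCI.{u, v} K D) ∧
    Criterion (PCI.{u, v} K D) ∧ RankCriterion (PCI.{u, v} K D) ∧ ExpCriterion (PCI.{u, v} K D) x ∧
    ContainsProducts K D :=
  ⟨fun _ hR _ hS => ⟨isSymm_tensor hR.1 hS.1, isProdAlg_tensor hR.2 hS.2⟩,
    class_iff (fun _ hR => hR.1) (closed_PCI D), rank_iff (fun _ hR => hR.1) (closed_PCI D),
    exp_iff (fun _ hR => hR.1) (closed_PCI D) hx, contains_products K D⟩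

end Pool.Agent.Results.MP_53b7aa_ag.AsymptoticProducts
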